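import Pool.Agent.H88.CR.Defs
import Pool.Agent.H88.WR.Targets

/-!
Rotund ranges for the weak maximizing property (MP_479f73_an): the statements.
-/

set_option autoImplicit false

open Filter Topology Set

namespace Pool.Agent.H88.CR

open Pool.Agent.H85.WMP Pool.Agent.H88.WR

variable (𝕜 : Type) [RCLike 𝕜]

/-! ### The defect in rotund spaces -/

/-- UCA -/
def T_UCA : Prop := ∀ (F : Type) [NormedAddCommGroup F] [NormedSpace 𝕜 F],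
  UniformConvexSpace F → UCD F

/-- LCA -/
def T_LCA : Prop := ∀ (F : Type) [NormedAddCommGroup F] [NormedSpace 𝕜 F], LUC F → LCD F

/-- SCA -/
def T_SCA : Prop := ∀ (F : Type) [NormedAddCommGroup F] [NormedSpace 𝕜 F], SC F → SCD F

/-! ### The new norm -/

/-- SUN: existence -/
def T_SUN : Prop := ∀ (F : Type) [NormedAddCommGroup F] [NormedSpace 𝕜 F]
  (φ : ℕ → StrongDual 𝕜 F) (c : ℕ → ℝ) (ε κ M : ℝ), 0 < ε → 0 < κ → (∀ n, ‖φ n‖ ≤ M) →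
  (∀ n, κ ≤ c n) → (∀ n, c n ≤ 1) →
  ∃ (F' : Type) (_ : NormedAddCommGroup F') (_ : NormedSpace 𝕜 F') (e : F' ≃L[𝕜] F),
    SupN 𝕜 F F' e φ c ε κ M

/-- DFE: the defect of the new norm -/
def T_DFE : Prop := ∀ (F : Type) [NormedAddCommGroup F] [NormedSpace 𝕜 F]
  (F' : Type) [NormedAddCommGroup F'] [NormedSpace 𝕜 F'] (e : F' ≃L[𝕜] F)
  (φ : ℕ → StrongDual 𝕜 F) (c : ℕ → ℝ) (ε κ M : ℝ), SupN 𝕜 F F' e φ c ε κ M →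
  (∀ y, κ * ε * ‖e y‖ ≤ ‖y‖) ∧ ∀ x y : F', ‖x‖ ≤ 1 → ‖y‖ ≤ 1 →
    (κ * ε) ^ 2 * Df (e x) (e y) ≤ 4 - ‖x + y‖ ^ 2

/-- UCB -/
def T_UCB : Prop := ∀ (F : Type) [NormedAddCommGroup F] [NormedSpace 𝕜 F]
  (F' : Type) [NormedAddCommGroup F'] [NormedSpace 𝕜 F'] (e : F' ≃L[𝕜] F)
  (φ : ℕ → StrongDual 𝕜 F) (c : ℕ → ℝ) (ε κ M : ℝ), SupN 𝕜 F F' e φ c ε κ M →
  UCD F → UniformConvexSpace F'

/-- LCB -/
def T_LCB : Prop := ∀ (F : Type) [NormedAddCommGroup F] [NormedSpace 𝕜 F]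
  (F' : Type) [NormedAddCommGroup F'] [NormedSpace 𝕜 F'] (e : F' ≃L[𝕜] F)
  (φ : ℕ → StrongDual 𝕜 F) (c : ℕ → ℝ) (ε κ M : ℝ), SupN 𝕜 F F' e φ c ε κ M →
  LCD F → LUC F'

/-- SCB -/
def T_SCB : Prop := ∀ (F : Type) [NormedAddCommGroup F] [NormedSpace 𝕜 F]
  (F' : Type) [NormedAddCommGroup F'] [NormedSpace 𝕜 F'] (e : F' ≃L[𝕜] F)
  (φ : ℕ → StrongDual 𝕜 F) (c : ℕ → ℝ) (ε κ M : ℝ), SupN 𝕜 F F' e φ c ε κ M →
  SCD F → SC F'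

/-- WCB -/
def T_WCB : Prop := ∀ (F : Type) [NormedAddCommGroup F] [NormedSpace 𝕜 F]
  (F' : Type) [NormedAddCommGroup F'] [NormedSpace 𝕜 F'] (e : F' ≃L[𝕜] F)
  (φ : ℕ → StrongDual 𝕜 F) (c : ℕ → ℝ) (ε κ M : ℝ), SupN 𝕜 F F' e φ c ε κ M →
  WCD 𝕜 F → WUC 𝕜 F'

/-! ### The operators -/

/-- XW1: almost norming weakly null sequences -/
def T_XW1 : Prop := ∀ (E : Type) [NormedAddCommGroup E] [NormedSpace 𝕜 E]
  (F : Type) [NormedAddCommGroup F] [NormedSpace 𝕜 F], SupWMP 𝕜 E F →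
  ∀ (T : E →L[𝕜] F) (φ : ℕ → StrongDual 𝕜 F) (M : ℝ) (f : StrongDual 𝕜 E) (η : ℝ),
  (∀ n, ‖φ n‖ ≤ M) → (∀ n, ‖(φ n).comp T‖ = 1) →
  (∀ z : E, Tendsto (fun n => φ n (T z)) atTop (𝓝 (f z))) → ‖f‖ < 1 → 0 < η →
  ∃ x : ℕ → E, (∀ n, ‖x n‖ = 1) ∧ WeaklyNull 𝕜 x ∧
    ∀ᶠ n in atTop, 1 - η ≤ ‖φ n (T (x n))‖

/-- XW2: norms of sums -/
def T_XW2 : Prop := ∀ (E : Type) [NormedAddCommGroup E] [NormedSpace 𝕜 E]
  (F : Type) [NormedAddCommGroup F] [NormedSpace 𝕜 F], SupWMP 𝕜 E F →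
  ∀ (T : E →L[𝕜] F) (ψ : ℕ → StrongDual 𝕜 F) (M : ℝ) (θ : StrongDual 𝕜 F) (η : ℝ),
  (∀ n, ‖ψ n‖ ≤ M) → (∀ n, ‖(ψ n).comp T‖ = 1) →
  (∀ z : E, Tendsto (fun n => ψ n (T z)) atTop (𝓝 0)) → 0 < η →
  ∀ᶠ n in atTop, ‖(θ + ψ n).comp T‖ ≤ max ‖θ.comp T‖ 1 + η

/-- XW3: the contradiction -/
def T_XW3 : Prop := ∀ (E : Type) [NormedAddCommGroup E] [NormedSpace 𝕜 E]
  (F : Type) [NormedAddCommGroup F] [NormedSpace 𝕜 F], SupWMP 𝕜 E F →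
  ∀ (T : E →L[𝕜] F) (ψ : ℕ → StrongDual 𝕜 F) (M : ℝ), (∀ n, ‖ψ n‖ ≤ M) →
  (∀ n, ‖(ψ n).comp T‖ = 1) → ¬ ∀ z : E, Tendsto (fun n => ψ n (T z)) atTop (𝓝 0)

/-! ### Separable reflexive ranges -/

/-- DSP: the dual of a separable reflexive space is separable -/
def T_DSP : Prop := ∀ (Y : Type) [NormedAddCommGroup Y] [NormedSpace 𝕜 Y], Refl 𝕜 Y →
  TopologicalSpace.SeparableSpace Y → TopologicalSpace.SeparableSpace (StrongDual 𝕜 Y)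

/-- SRF: closed subspaces of reflexive spaces are reflexive -/
def T_SRF : Prop := ∀ (E : Type) [NormedAddCommGroup E] [NormedSpace 𝕜 E] (Y : Submodule 𝕜 E),
  Refl 𝕜 E → IsClosed (Y : Set E) → Refl 𝕜 Y

/-- SQN: a norm which is a sum of squares -/
def T_SQN : Prop := ∀ (F : Type) [NormedAddCommGroup F] [NormedSpace 𝕜 F] (p : ℕ → F → ℝ),
  (∀ k x, 0 ≤ p k x) → (∀ k x, p k x ≤ ‖x‖) → (∀ k x y, p k (x + y) ≤ p k x + p k y) →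
  (∀ k (c : 𝕜) x, p k (c • x) = ‖c‖ * p k x) →
  ∃ (F' : Type) (_ : NormedAddCommGroup F') (_ : NormedSpace 𝕜 F') (e : F' ≃L[𝕜] F),
    (∀ y, ‖e y‖ ≤ ‖y‖) ∧ (∀ y, ‖y‖ ≤ 2 * ‖e y‖) ∧
    ∀ x y : F', 0 ≤ Df x y ∧ ∀ k, (1 / 2 : ℝ) ^ (k + 1) *
      (2 * p k (e x) ^ 2 + 2 * p k (e y) ^ 2 - p k (e x + e y) ^ 2) ≤ Df x y

/-- KAD: a rotund norm -/
def T_KAD : Prop := ∀ (F : Type) [NormedAddCommGroup F] [NormedSpace 𝕜 F], Refl 𝕜 F →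
  TopologicalSpace.SeparableSpace F →
  ∃ (F' : Type) (_ : NormedAddCommGroup F') (_ : NormedSpace 𝕜 F') (_ : F' ≃L[𝕜] F),
    LCD F' ∧ WCD 𝕜 F'

/-- NUL: a separable reflexive range for an infinite-dimensional reflexive space -/
def T_NUL : Prop := ∀ (E : Type) [NormedAddCommGroup E] [NormedSpace 𝕜 E], Refl 𝕜 E →
  ¬ FiniteDimensional 𝕜 E →
  ∃ (F : Type) (_ : NormedAddCommGroup F) (_ : NormedSpace 𝕜 F) (_ : CompleteSpace F)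
    (T : E →L[𝕜] F) (ψ : ℕ → StrongDual 𝕜 F), Refl 𝕜 F ∧ TopologicalSpace.SeparableSpace F ∧
    (∀ n, ‖ψ n‖ ≤ 1) ∧ (∀ n, ‖(ψ n).comp T‖ = 1) ∧
    ∀ z : E, Tendsto (fun n => ψ n (T z)) atTop (𝓝 0)

/-- SCF: the scalar field -/
def T_SCF : Prop := Refl 𝕜 𝕜 ∧ LUC 𝕜 ∧ WUC 𝕜 𝕜

/-! ### A space with few operators -/

/-- GRW: uniformly convex spaces do not contain `ℓ_∞^n` uniformly and have no `c_0` spreading
models -/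
def T_GRW : Prop := ∀ (F : Type) [NormedAddCommGroup F] [NormedSpace 𝕜 F],
  UniformConvexSpace F → ¬ C0M 𝕜 F

/-- EXT: spreading models and `ℓ_∞^n` -/
def T_EXT : Prop := ∀ (F : Type) [NormedAddCommGroup F] [NormedSpace 𝕜 F], C0M 𝕜 F → LIU 𝕜 F

/-- SCH: the family of the sets `A` with `#A ≤ 1 + min A` -/
def T_SCH : Prop := ∃ M : Set (Finset ℕ), Good M

/-- TSI: the space -/
def T_TSI : Prop := ∃ (E : Type) (_ : NormedAddCommGroup E) (_ : NormedSpace 𝕜 E)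
  (_ : CompleteSpace E), ¬ FiniteDimensional 𝕜 E ∧ Refl 𝕜 E ∧
  ∀ (F : Type) [NormedAddCommGroup F] [NormedSpace 𝕜 F] [CompleteSpace F], ¬ C0M 𝕜 F →
    AllCompact 𝕜 E F

/-! ### The theorems -/

/-- TH1: characterisations for rotund renormings -/
def T_TH1 : Prop := ∀ (E : Type) [NormedAddCommGroup E] [NormedSpace 𝕜 E] [CompleteSpace E]
  (F : Type) [NormedAddCommGroup F] [NormedSpace 𝕜 F] [CompleteSpace F] [Nontrivial F],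
  (UniformConvexSpace F →
    ((∀ (F' : Type) [NormedAddCommGroup F'] [NormedSpace 𝕜 F'], Nonempty (F' ≃L[𝕜] F) →
      UniformConvexSpace F' → HasWMP 𝕜 E F') ↔ Refl 𝕜 E ∧ AllCompact 𝕜 E F)) ∧
  (LUC F →
    ((∀ (F' : Type) [NormedAddCommGroup F'] [NormedSpace 𝕜 F'], Nonempty (F' ≃L[𝕜] F) →
      LUC F' → HasWMP 𝕜 E F') ↔ Refl 𝕜 E ∧ AllCompact 𝕜 E F)) ∧
  (SC F →
    ((∀ (F' : Type) [NormedAddCommGroup F'] [NormedSpace 𝕜 F'], Nonempty (F' ≃L[𝕜] F) →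
      SC F' → HasWMP 𝕜 E F') ↔ Refl 𝕜 E ∧ AllCompact 𝕜 E F))

/-- TH2: rotund ranges are enough -/
def T_TH2 : Prop := ∀ (E : Type) [NormedAddCommGroup E] [NormedSpace 𝕜 E] [CompleteSpace E],
  (∀ (F : Type) [NormedAddCommGroup F] [NormedSpace 𝕜 F] [CompleteSpace F], Refl 𝕜 F →
    TopologicalSpace.SeparableSpace F → LUC F → WUC 𝕜 F → HasWMP 𝕜 E F) ↔
    FiniteDimensional 𝕜 E

/-- TH3: uniformly convex ranges are not enough -/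
def T_TH3 : Prop := (∃ (E : Type) (_ : NormedAddCommGroup E) (_ : NormedSpace 𝕜 E)
  (_ : CompleteSpace E), ¬ FiniteDimensional 𝕜 E ∧
  ∀ (F : Type) [NormedAddCommGroup F] [NormedSpace 𝕜 F] [CompleteSpace F], ¬ C0M 𝕜 F →
    HasWMP 𝕜 E F) ∧
  ∀ (F : Type) [NormedAddCommGroup F] [NormedSpace 𝕜 F],
    (UniformConvexSpace F → ¬ C0M 𝕜 F) ∧ (C0M 𝕜 F → LIU 𝕜 F)

end Pool.Agent.H88.CR
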