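import Pool.Agent.H88.CR.Targets

/-!
Assembly of the theorems on rotund ranges.
-/

set_option autoImplicit false

open Filter Topology Set Pool.Agent.H85.WMP Pool.Agent.H88.WR

namespace Pool.Agent.H88.CR

theorem pf_TSI (𝕜 : Type) [RCLike 𝕜] (hSCH : T_SCH) (hTNE : T_TNE 𝕜) (hSPE : T_SPE 𝕜)
    (hRFX : T_RFX 𝕜) (hIND : T_IND 𝕜) (hOPM : T_OPM 𝕜) : T_TSI 𝕜 := by
  obtain ⟨M, hM⟩ := hSCH
  obtain ⟨N, hN⟩ := hTNE M hM.empty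
  obtain ⟨S⟩ := hSPE M N hN
  refine ⟨S.D, inferInstance, inferInstance, inferInstance, hIND M N hN S, hRFX M N hM hN S,
    fun F _ _ _ hC T => ?_⟩
  by_contra hT
  obtain ⟨m, y, δ, K, h1, h2, h3, h4⟩ := hOPM M N hM hN S F T hT
  refine hC ⟨y, δ, K, h2, h3, fun n s a hs hc ha => h4 s (hM.sch (s.image m) n ?_ ?_) a ha⟩
  · intro b hb
    obtain ⟨i, hi, rfl⟩ := Finset.mem_image.1 hb
    exact (hs i hi).trans (h1.id_le i)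
  · exact Finset.card_image_le.trans hc

theorem pf_TH3 (𝕜 : Type) [RCLike 𝕜] (hTSI : T_TSI 𝕜) (hCPA : T_CPA 𝕜) (hGRW : T_GRW 𝕜)
    (hEXT : T_EXT 𝕜) : T_TH3 𝕜 := by
  obtain ⟨E, i1, i2, i3, h1, h2, h3⟩ := hTSI
  exact ⟨⟨E, i1, i2, i3, h1, fun F _ _ _ hF => hCPA E F h2 (h3 F hF)⟩,
    fun F _ _ => ⟨hGRW F, hEXT F⟩⟩

theorem pf_TH1 (𝕜 : Type) [RCLike 𝕜] (hCPA : T_CPA 𝕜) (hACI : T_ACI 𝕜) (hR1A : T_R1A 𝕜)
    (hJAM : T_JAM 𝕜) (hNCD : T_NCD 𝕜) (hXW3 : T_XW3 𝕜) (hUCA : T_UCA 𝕜) (hLCA : T_LCA 𝕜)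
    (hSCA : T_SCA 𝕜) (hUCB : T_UCB 𝕜) (hLCB : T_LCB 𝕜) (hSCB : T_SCB 𝕜) : T_TH1 𝕜 := by
  intro E _ _ _ F _ _ _ _
  have main : SupWMP 𝕜 E F → HasWMP 𝕜 E F → Refl 𝕜 E ∧ AllCompact 𝕜 E F := by
    intro hS hW
    have hR := hJAM E (hR1A E F hW)
    refine ⟨hR, fun T => ?_⟩
    by_contra hT
    obtain ⟨ψ, C, h1, h2, h3⟩ := hNCD E F hR T hT
    exact hXW3 E F hS T ψ C h1 h2 h3
  have back : Refl 𝕜 E ∧ AllCompact 𝕜 E F → ∀ (F' : Type) [NormedAddCommGroup F']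
      [NormedSpace 𝕜 F'], Nonempty (F' ≃L[𝕜] F) → HasWMP 𝕜 E F' := fun h F' _ _ he =>
    hCPA E F' h.1 (hACI E E F F' ⟨ContinuousLinearEquiv.refl 𝕜 E⟩ he h.2)
  refine ⟨fun hP => ⟨fun h => main (fun F' _ _ e φ c ε κ M hN => ?_) ?_,
    fun h F' _ _ he _ => back h F' he⟩,
    fun hP => ⟨fun h => main (fun F' _ _ e φ c ε κ M hN => ?_) ?_,
    fun h F' _ _ he _ => back h F' he⟩,
    fun hP => ⟨fun h => main (fun F' _ _ e φ c ε κ M hN => ?_) ?_,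
    fun h F' _ _ he _ => back h F' he⟩⟩
  · exact h F' ⟨e⟩ (hUCB F F' e φ c ε κ M hN (hUCA F hP))
  · exact h F ⟨ContinuousLinearEquiv.refl 𝕜 F⟩ hP
  · exact h F' ⟨e⟩ (hLCB F F' e φ c ε κ M hN (hLCA F hP))
  · exact h F ⟨ContinuousLinearEquiv.refl 𝕜 F⟩ hP
  · exact h F' ⟨e⟩ (hSCB F F' e φ c ε κ M hN (hSCA F hP))
  · exact h F ⟨ContinuousLinearEquiv.refl 𝕜 F⟩ hP

/-- finite-dimensional domains -/
theorem wmp_of_finite (𝕜 : Type) [RCLike 𝕜] (E : Type) [NormedAddCommGroup E] [NormedSpace 𝕜 E]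
    (F : Type) [NormedAddCommGroup F] [NormedSpace 𝕜 F] (hfin : FiniteDimensional 𝕜 E) :
    HasWMP 𝕜 E F := by
  intro T
  rintro ⟨x, ⟨hx1, hx2⟩, -⟩
  have : ProperSpace E := FiniteDimensional.proper 𝕜 E
  obtain ⟨z, hz, φ, hφ, hφz⟩ := (isCompact_sphere (0 : E) 1).tendsto_subseq
    (fun n => by simpa using hx1 n : ∀ n, x n ∈ Metric.sphere (0 : E) 1)
  refine ⟨z, by simpa using hz, ?_⟩
  have h1 : Tendsto (fun n => ‖T (x (φ n))‖) atTop (𝓝 ‖T z‖) :=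
    ((T.continuous.tendsto z).comp hφz).norm
  exact tendsto_nhds_unique h1 (hx2.comp hφ.tendsto_atTop)

/-- isomorphic spaces are complete -/
theorem complete_of_equiv {𝕜 : Type} [RCLike 𝕜] {F : Type} [NormedAddCommGroup F]
    [NormedSpace 𝕜 F] {F' : Type} [NormedAddCommGroup F'] [NormedSpace 𝕜 F'] (e : F' ≃L[𝕜] F)
    [CompleteSpace F] : CompleteSpace F' :=
  (completeSpace_congr (e := e.toEquiv) e.isUniformEmbedding).2 inferInstance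

theorem pf_TH2 (𝕜 : Type) [RCLike 𝕜] (hRFI : T_RFI 𝕜) (hR1A : T_R1A 𝕜)
    (hJAM : T_JAM 𝕜) (hXW3 : T_XW3 𝕜) (hLCB : T_LCB 𝕜) (hWCB : T_WCB 𝕜) (hSCF : T_SCF 𝕜)
    (hNUL : T_NUL 𝕜) (hKAD : T_KAD 𝕜) : T_TH2 𝕜 := by
  intro E _ _ _
  refine ⟨fun h => ?_, fun h F _ _ _ _ _ _ _ => wmp_of_finite 𝕜 E F h⟩
  by_contra hE
  have hR : Refl 𝕜 E := hJAM E (hR1A E 𝕜 (h 𝕜 hSCF.1 inferInstance hSCF.2.1 hSCF.2.2))
  obtain ⟨F, i1, i2, i3, T, ψ, hFr, hFs, hψ, hg, hg0⟩ := hNUL E hR hE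
  obtain ⟨F₁, j1, j2, e₁, hL, hW⟩ := hKAD F hFr hFs
  have hF₁c : CompleteSpace F₁ := complete_of_equiv e₁
  have hS : SupWMP 𝕜 E F₁ := by
    intro F' _ _ e φ c ε κ M hN
    have hc : CompleteSpace F' := complete_of_equiv e
    have e' : F' ≃L[𝕜] F := e.trans e₁
    have hsep : TopologicalSpace.SeparableSpace F' := by
      have := hFs
      exact e'.symm.surjective.denseRange.separableSpace e'.symm.continuous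
    exact h F' (hRFI F F' ⟨e'⟩ hFr) hsep (hLCB F₁ F' e φ c ε κ M hN hL)
      (hWCB F₁ F' e φ c ε κ M hN hW)
  obtain ⟨T₁, hT₁⟩ : ∃ T₁ : E →L[𝕜] F₁, ∀ z, e₁ (T₁ z) = T z :=
    ⟨(e₁.symm : F →L[𝕜] F₁).comp T, fun z => by simp⟩
  have hco : ∀ n, ((ψ n).comp (e₁ : F₁ →L[𝕜] F)).comp T₁ = (ψ n).comp T := by
    intro n
    ext z
    show ψ n (e₁ (T₁ z)) = ψ n (T z)
    rw [hT₁]
  refine hXW3 E F₁ hS T₁ (fun n => (ψ n).comp (e₁ : F₁ →L[𝕜] F)) ‖(e₁ : F₁ →L[𝕜] F)‖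
    (fun n => ?_) (fun n => by rw [hco]; exact hg n) (fun z => ?_)
  · refine ((ψ n).opNorm_comp_le _).trans ?_
    calc ‖ψ n‖ * ‖(e₁ : F₁ →L[𝕜] F)‖ ≤ 1 * ‖(e₁ : F₁ →L[𝕜] F)‖ := by gcongr; exact hψ n
      _ = _ := one_mul _
  · have : (fun n => ((ψ n).comp (e₁ : F₁ →L[𝕜] F)) (T₁ z)) = fun n => ψ n (T z) := by
      funext n
      show ψ n (e₁ (T₁ z)) = ψ n (T z)
      rw [hT₁]
    rw [this]
    exact hg0 z

end Pool.Agent.H88.CR
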