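import Pool.Agent.H88.CR.Targets
import Pool.Agent.H5.WR.FHS
import Pool.Agent.H5.WR.PTU
import Pool.Agent.H5.WR.PTF

/-!
SCH: the family of the sets `A` with `#A ≤ 1 + min A`.
-/

set_option autoImplicit false

open Filter Topology Set Pool.Agent.H85.WMP Pool.Agent.H88.WR

namespace Pool.Agent.H88.CR

/-- the tree of the lists of length at most `C` -/
def TrS (C : ℕ) (s : List ℕ) : Prop := s.length ≤ C

theorem wft_TrS : WFT TrS where
  short C s h := h
  pre C s t h := by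
    unfold TrS at *
    rw [List.length_append] at h
    omega
  nobr C k := ⟨C + 1, by
    unfold TrS
    simp⟩

theorem pf_SCH : T_SCH := by
  obtain ⟨h1, h2, h3⟩ := Pool.Agent.H5.WR.pf_FSC TrS wft_TrS
  exact ⟨FamT TrS, Pool.Agent.H5.WR.pf_FHS TrS wft_TrS, h1, h2, h3,
    Pool.Agent.H5.WR.pf_PTF (Pool.Agent.H5.WR.pf_PTD Pool.Agent.H5.WR.pf_PTU)
      Pool.Agent.H5.WR.pf_FHS TrS wft_TrS⟩

end Pool.Agent.H88.CR
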