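import Pool.Agent.H88.CR.Targets
import Pool.Agent.H55.WM.Main

/-!
XW1: almost norming weakly null sequences.
-/

set_option autoImplicit false

open Filter Topology Set Pool.Agent.H85.WMP Pool.Agent.H88.WR

namespace Pool.Agent.H88.CR

theorem pf_XW1 (𝕜 : Type) [RCLike 𝕜] (hSUN : T_SUN 𝕜) : T_XW1 𝕜 := by
  intro E _ _ F _ _ hW T φ M f η hφ hh hf hf1 hη
  -- the numbers
  obtain ⟨t, htd⟩ : ∃ t : ℝ, t = min (η / 2) ((1 - ‖f‖ ^ 2) / 2) := ⟨_, rfl⟩
  have hf0 := norm_nonneg f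
  have hf2 : ‖f‖ ^ 2 < 1 := by nlinarith
  have ht0 : 0 < t := by rw [htd]; exact lt_min (by linarith) (by linarith)
  have ht1 : t ≤ η / 2 := by rw [htd]; exact min_le_left _ _
  have ht2 : t ≤ (1 - ‖f‖ ^ 2) / 2 := by rw [htd]; exact min_le_right _ _
  have ht3 : t ≤ 1 / 2 := by nlinarith [sq_nonneg ‖f‖]
  have hT0 := norm_nonneg T
  obtain ⟨ε, hεd⟩ : ∃ ε : ℝ, ε = Real.sqrt t / (‖T‖ + 1) := ⟨_, rfl⟩
  have hst : 0 < Real.sqrt t := Real.sqrt_pos.2 ht0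
  have hε : 0 < ε := by rw [hεd]; positivity
  have hεT : ε * ‖T‖ ≤ Real.sqrt t := by
    rw [hεd, div_mul_eq_mul_div, div_le_iff₀ (by positivity)]
    nlinarith
  let a : ℕ → ℝ := fun n => 1 - 1 / ((n : ℝ) + 2)
  have ha_lt : ∀ n, a n < 1 := fun n => by
    have : (0 : ℝ) < 1 / ((n : ℝ) + 2) := by positivity
    simp only [a]; linarith
  have ha_half : ∀ n, 1 / 2 ≤ a n := fun n => by
    have : 1 / ((n : ℝ) + 2) ≤ 1 / 2 := by
      apply one_div_le_one_div_of_le (by norm_num)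
      have : (0 : ℝ) ≤ n := Nat.cast_nonneg n
      linarith
    simp only [a]; linarith
  have ha_nn : ∀ n, 0 ≤ a n := fun n => by have := ha_half n; linarith
  have ha_mono : Monotone a := by
    intro m n hmn
    simp only [a]
    have h1 : ((m : ℝ)) ≤ n := by exact_mod_cast hmn
    have : 1 / ((n : ℝ) + 2) ≤ 1 / ((m : ℝ) + 2) := by
      apply one_div_le_one_div_of_le (by positivity)
      linarith
    linarith
  have ha_tend : Tendsto a atTop (𝓝 1) := by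
    have h1 : Tendsto (fun n : ℕ => 1 / ((n : ℝ) + 2)) atTop (𝓝 0) := by
      have := (tendsto_const_div_atTop_nhds_zero_nat (1 : ℝ)).comp (tendsto_add_atTop_nat 2)
      refine this.congr (fun n => ?_)
      simp
    have h2 := h1.const_sub 1
    simpa [a] using h2
  have ha2_tend : Tendsto (fun n => a n ^ 2) atTop (𝓝 1) := by
    simpa using ha_tend.pow 2
  -- the norms
  obtain ⟨G, hG⟩ : ∃ G : ℕ → E → ℝ, G = fun n z =>
      Real.sqrt (‖φ n (T z)‖ ^ 2 + (ε * ‖T z‖) ^ 2) := ⟨_, rfl⟩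
  have hG0 : ∀ n z, 0 ≤ G n z := fun n z => by rw [hG]; exact Real.sqrt_nonneg _
  have hhz : ∀ n z, ‖φ n (T z)‖ ≤ ‖z‖ := by
    intro n z
    calc ‖φ n (T z)‖ = ‖((φ n).comp T) z‖ := rfl
      _ ≤ ‖(φ n).comp T‖ * ‖z‖ := ((φ n).comp T).le_opNorm z
      _ = ‖z‖ := by rw [hh, one_mul]
  have hTz1 : ∀ z : E, ‖z‖ = 1 → (ε * ‖T z‖) ^ 2 ≤ t := by
    intro z hz
    have h1 : ‖T z‖ ≤ ‖T‖ := by
      have := T.le_opNorm z
      rwa [hz, mul_one] at this
    have h2 : ε * ‖T z‖ ≤ Real.sqrt t := (mul_le_mul_of_nonneg_left h1 hε.le).trans hεT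
    calc (ε * ‖T z‖) ^ 2 ≤ Real.sqrt t ^ 2 :=
          pow_le_pow_left₀ (mul_nonneg hε.le (norm_nonneg _)) h2 2
      _ = t := Real.sq_sqrt ht0.le
  have hG2 : ∀ n (z : E), ‖z‖ = 1 → G n z ≤ 2 := by
    intro n z hz
    rw [hG]
    apply Real.sqrt_le_iff.2 ⟨by norm_num, ?_⟩
    have h1 := hTz1 z hz
    have h2 := hhz n z
    rw [hz] at h2
    have h3 : ‖φ n (T z)‖ ^ 2 ≤ 1 := by
      have := pow_le_pow_left₀ (norm_nonneg _) h2 2
      simpa using this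
    linarith
  have hGlow : ∀ n z, ‖φ n (T z)‖ ≤ G n z := by
    intro n z
    rw [hG]
    apply Real.le_sqrt_of_sq_le
    nlinarith [sq_nonneg (ε * ‖T z‖)]
  have hne : Nonempty {z : E // ‖z‖ = 1} := by
    obtain ⟨z, hz, -⟩ := Pool.Agent.H55.WM.exists_norming_vector (𝕜 := 𝕜) (f := (φ 0).comp T)
      (r := 1 / 2) (by norm_num) (by rw [hh]; norm_num)
    exact ⟨⟨z, hz⟩⟩
  obtain ⟨r, hr⟩ : ∃ r : ℕ → ℝ, r = fun n => ⨆ z : {z : E // ‖z‖ = 1}, G n z.1 := ⟨_, rfl⟩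
  have hbd : ∀ n, BddAbove (Set.range fun z : {z : E // ‖z‖ = 1} => G n z.1) := fun n =>
    ⟨2, by rintro _ ⟨z, rfl⟩; exact hG2 n z.1 z.2⟩
  have hGr : ∀ n (z : E), ‖z‖ = 1 → G n z ≤ r n := by
    intro n z hz
    rw [hr]
    exact le_ciSup (hbd n) ⟨z, hz⟩
  have hr2 : ∀ n, r n ≤ 2 := by
    intro n
    rw [hr]
    exact ciSup_le fun z => hG2 n z.1 z.2
  have hr1 : ∀ n, 1 ≤ r n := by
    intro n
    by_contra hcon
    push Not at hcon
    have hr0 : 0 ≤ r n := (hG0 n hne.some.1).trans (hGr n _ hne.some.2)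
    obtain ⟨z, hz, hz2⟩ := Pool.Agent.H55.WM.exists_norming_vector (𝕜 := 𝕜) (f := (φ n).comp T)
      (r := (r n + 1) / 2) (by linarith) (by rw [hh]; linarith)
    have h1 := (hGlow n z).trans (hGr n z hz)
    have h2 : ‖((φ n).comp T) z‖ = ‖φ n (T z)‖ := rfl
    rw [h2] at hz2
    linarith
  obtain ⟨c, hc⟩ : ∃ c : ℕ → ℝ, c = fun n => a n / r n := ⟨_, rfl⟩
  have hrpos : ∀ n, 0 < r n := fun n => by have := hr1 n; linarith
  have hc1 : ∀ n, c n ≤ 1 := by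
    intro n
    rw [hc]
    exact (div_le_one (hrpos n)).2 ((ha_lt n).le.trans (hr1 n))
  have hc0 : ∀ n, 1 / 4 ≤ c n := by
    intro n
    rw [hc]
    show 1 / 4 ≤ a n / r n
    rw [le_div_iff₀ (hrpos n)]
    have := hr2 n
    have := ha_half n
    linarith
  have hcn : ∀ n, 0 ≤ c n := fun n => by have := hc0 n; linarith
  obtain ⟨F', i1, i2, e, hN⟩ := hSUN F φ c ε (1 / 4) M hε (by norm_num) hφ hc0 hc1
  have hWM : HasWMP 𝕜 E F' := hW F' e φ c ε (1 / 4) M hN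
  obtain ⟨T', hT'⟩ : ∃ T' : E →L[𝕜] F', ∀ z, e (T' z) = T z :=
    ⟨(e.symm : F →L[𝕜] F').comp T, fun z => by simp⟩
  have hnorm : ∀ z, ‖T' z‖ = ⨆ n, c n * G n z := by
    intro z
    rw [hN.norm, hT', hG]
  have hca : ∀ n (z : E), ‖z‖ = 1 → c n * G n z ≤ a n := by
    intro n z hz
    have h1 := hGr n z hz
    calc c n * G n z ≤ c n * r n := mul_le_mul_of_nonneg_left h1 (hcn n)
      _ = a n := by rw [hc]; exact div_mul_cancel₀ _ (hrpos n).ne'
  have hbdd : ∀ z : E, ‖z‖ = 1 → BddAbove (Set.range fun n => c n * G n z) := fun z hz =>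
    ⟨1, by rintro _ ⟨n, rfl⟩; exact (hca n z hz).trans (ha_lt n).le⟩
  have hle1 : ‖T'‖ ≤ 1 := by
    refine ContinuousLinearMap.opNorm_le_of_unit_norm (𝕜 := 𝕜) zero_le_one ?_
    intro z hz
    rw [hnorm]
    exact ciSup_le fun n => (hca n z hz).trans (ha_lt n).le
  -- the maximizing sequence
  have hx : ∀ n, ∃ x : E, ‖x‖ = 1 ∧ a n * r n ≤ G n x := by
    intro n
    have h1 : a n * r n < r n := by nlinarith [ha_lt n, hrpos n]
    have h2 : a n * r n < ⨆ z : {z : E // ‖z‖ = 1}, G n z.1 := by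
      rw [hr] at h1 ⊢
      exact h1
    obtain ⟨z, hz⟩ := exists_lt_of_lt_ciSup h2
    exact ⟨z.1, z.2, hz.le⟩
  choose x hx1 hxG using hx
  have hlow : ∀ n, a n ^ 2 ≤ ‖T' (x n)‖ := by
    intro n
    rw [hnorm]
    refine le_trans ?_ (le_ciSup (hbdd (x n) (hx1 n)) n)
    calc a n ^ 2 = c n * (a n * r n) := by
          rw [hc]
          show a n ^ 2 = a n / r n * (a n * r n)
          have := (hrpos n).ne'
          field_simp
      _ ≤ c n * G n (x n) := mul_le_mul_of_nonneg_left (hxG n) (hcn n)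
  have hup : ∀ n, ‖T' (x n)‖ ≤ ‖T'‖ := fun n => by
    calc ‖T' (x n)‖ ≤ ‖T'‖ * ‖x n‖ := T'.le_opNorm _
      _ = ‖T'‖ := by rw [hx1, mul_one]
  have hT1 : ‖T'‖ = 1 := le_antisymm hle1
    (le_of_tendsto' ha2_tend (fun n => (hlow n).trans (hup n)))
  have hmax : IsMaximizing T' x := by
    refine ⟨hx1, ?_⟩
    rw [hT1]
    exact tendsto_of_tendsto_of_tendsto_of_le_of_le ha2_tend tendsto_const_nhds hlow
      (fun n => (hup n).trans hle1)
  refine ⟨x, hx1, ?_, ?_⟩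
  · -- weakly null
    by_contra hnull
    obtain ⟨z, hz1, hz⟩ := hWM T' ⟨x, hmax, hnull⟩
    have hfz : ‖f z‖ ≤ ‖f‖ := by
      have := f.le_opNorm z
      rwa [hz1, mul_one] at this
    have hfz2 : ‖f z‖ ^ 2 ≤ ‖f‖ ^ 2 := pow_le_pow_left₀ (norm_nonneg _) hfz 2
    obtain ⟨q, hq⟩ : ∃ q : ℝ, q = Real.sqrt (‖f z‖ ^ 2 + (ε * ‖T z‖) ^ 2) := ⟨_, rfl⟩
    have hq1 : q < 1 := by
      rw [hq]
      rw [Real.sqrt_lt' one_pos]
      have := hTz1 z hz1
      linarith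
    have hGt : Tendsto (fun n => G n z) atTop (𝓝 q) := by
      rw [hG, hq]
      exact (Real.continuous_sqrt.tendsto _).comp (((hf z).norm.pow 2).add_const _)
    have hev : ∀ᶠ n in atTop, G n z < (q + 1) / 2 :=
      hGt.eventually_lt_const (by linarith)
    obtain ⟨N, hNN⟩ := eventually_atTop.1 hev
    have hlt : ‖T' z‖ ≤ max ((q + 1) / 2) (a N) := by
      rw [hnorm]
      refine ciSup_le fun i => ?_
      by_cases hi : N ≤ i
      · refine le_trans ?_ (le_max_left _ _)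
        calc c i * G i z ≤ 1 * G i z := mul_le_mul_of_nonneg_right (hc1 i) (hG0 i z)
          _ ≤ (q + 1) / 2 := by rw [one_mul]; exact (hNN _ hi).le
      · exact ((hca i z hz1).trans (ha_mono (not_le.1 hi).le)).trans (le_max_right _ _)
    rw [hz, hT1] at hlt
    exact absurd hlt (not_le.2 (max_lt (by linarith) (ha_lt N)))
  · -- almost norming
    have hev : ∀ᶠ n in atTop, 1 - η / 2 < a n ^ 2 :=
      ha2_tend.eventually_const_lt (by linarith)
    filter_upwards [hev] with n hn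
    by_cases hη1 : 1 < η
    · exact (by linarith : 1 - η ≤ 0).trans (norm_nonneg _)
    push Not at hη1
    have h1 : (a n * r n) ^ 2 ≤ G n (x n) ^ 2 :=
      pow_le_pow_left₀ (mul_nonneg (ha_nn n) (hrpos n).le) (hxG n) 2
    have h2 : G n (x n) ^ 2 = ‖φ n (T (x n))‖ ^ 2 + (ε * ‖T (x n)‖) ^ 2 := by
      rw [hG]
      exact Real.sq_sqrt (by positivity)
    have h3 := hTz1 (x n) (hx1 n)
    have h4 : a n ^ 2 ≤ (a n * r n) ^ 2 := by
      rw [mul_pow]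
      have h5 : 1 ≤ r n ^ 2 := one_le_pow₀ (hr1 n)
      nlinarith [sq_nonneg (a n)]
    have h6 : (1 - η) ^ 2 ≤ ‖φ n (T (x n))‖ ^ 2 := by nlinarith
    exact le_of_sq_le_sq h6 (norm_nonneg _)

end Pool.Agent.H88.CR
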