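import Pool.Agent.H88.WR.All
import Pool.Agent.H88.CR.Asm
import Pool.Agent.H88.CR.SCH
import Pool.Agent.H88.CR.XW1
import Pool.Agent.H88.CR.XW2
import Pool.Agent.H88.CR.XW3
import Pool.Agent.H79.CRV.DFE
import Pool.Agent.H37.CR.DSP
import Pool.Agent.H37.CR.SCB
import Pool.Agent.H40.CR.EXT
import Pool.Agent.H40.CR.UCB
import Pool.Agent.H23.CR.GRW
import Pool.Agent.H55.CR.KAD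
import Pool.Agent.H5.CVR.LCA
import Pool.Agent.H95.CR.LCB
import Pool.Agent.H89.CR.NUL1
import Pool.Agent.H25.CVR.SCA
import Pool.Agent.H25.CVR.UCA
import Pool.Agent.H4.CR.SCF
import Pool.Agent.H35.CR.SQN
import Pool.Agent.H41.CR.SRF
import Pool.Agent.H14.CR.SUN
import Pool.Agent.H46.CVR.WCB

/-!
All rows of the board cvr_modules together.
-/

set_option autoImplicit false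

open Filter Topology Set Pool.Agent.H85.WMP Pool.Agent.H88.WR

namespace Pool.Agent.H88.CR.All

variable (𝕜 : Type) [RCLike 𝕜]

theorem dfe : T_DFE 𝕜 := Pool.Agent.H79.CRV.pf_DFE 𝕜

theorem dsp : T_DSP 𝕜 := Pool.Agent.H37.CR.pf_DSP 𝕜

theorem sqn : T_SQN 𝕜 := Pool.Agent.H35.CR.pf_SQN 𝕜

theorem kad : T_KAD 𝕜 := Pool.Agent.H55.CR.pf_KAD 𝕜 (dsp 𝕜) (sqn 𝕜)

theorem srf : T_SRF 𝕜 := Pool.Agent.H41.CR.pf_SRF 𝕜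

theorem nul : T_NUL 𝕜 :=
  Pool.Agent.H89.CR.pf_NUL 𝕜 (Pool.Agent.H88.WR.All.rfd 𝕜) (dsp 𝕜) (srf 𝕜)

theorem lca : T_LCA 𝕜 := Pool.Agent.H5.CVR.pf_LCA 𝕜

theorem lcb : T_LCB 𝕜 := Pool.Agent.H95.CR.pf_LCB 𝕜 (dfe 𝕜)

theorem sca : T_SCA 𝕜 := Pool.Agent.H25.CVR.pf_SCA 𝕜

theorem scb : T_SCB 𝕜 := Pool.Agent.H37.CR.pf_SCB 𝕜 (dfe 𝕜)

theorem uca : T_UCA 𝕜 := Pool.Agent.H25.CVR.pf_UCA 𝕜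

theorem ucb : T_UCB 𝕜 := Pool.Agent.H40.CR.pf_UCB 𝕜 (dfe 𝕜)

theorem wcb : T_WCB 𝕜 := Pool.Agent.H46.CVR.pf_WCB 𝕜 (dfe 𝕜)

theorem scf : T_SCF 𝕜 := Pool.Agent.H4.CR.pf_SCF 𝕜

theorem sun : T_SUN 𝕜 := Pool.Agent.H14.CR.pf_SUN 𝕜

theorem xw1 : T_XW1 𝕜 := pf_XW1 𝕜 (sun 𝕜)

theorem xw2 : T_XW2 𝕜 := pf_XW2 𝕜 (xw1 𝕜)

theorem xw3 : T_XW3 𝕜 := pf_XW3 𝕜 (xw1 𝕜) (xw2 𝕜)

theorem grw : T_GRW 𝕜 := Pool.Agent.H23.CR.pf_GRW 𝕜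

theorem ext : T_EXT 𝕜 := Pool.Agent.H40.CR.pf_EXT 𝕜

theorem tsi : T_TSI 𝕜 :=
  pf_TSI 𝕜 pf_SCH (Pool.Agent.H88.WR.All.tne 𝕜) (Pool.Agent.H88.WR.All.spe 𝕜)
    (Pool.Agent.H88.WR.All.rfx 𝕜) (Pool.Agent.H88.WR.All.ind 𝕜) (Pool.Agent.H88.WR.All.opm 𝕜)

theorem th1 : T_TH1 𝕜 :=
  pf_TH1 𝕜 (Pool.Agent.H88.WR.All.cpa 𝕜) (Pool.Agent.H88.WR.All.aci 𝕜)
    (Pool.Agent.H88.WR.All.r1a 𝕜) (Pool.Agent.H88.WR.All.jam 𝕜) (Pool.Agent.H88.WR.All.ncd 𝕜)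
    (xw3 𝕜) (uca 𝕜) (lca 𝕜) (sca 𝕜) (ucb 𝕜) (lcb 𝕜) (scb 𝕜)

theorem th2 : T_TH2 𝕜 :=
  pf_TH2 𝕜 (Pool.Agent.H88.WR.All.rfi 𝕜) (Pool.Agent.H88.WR.All.r1a 𝕜)
    (Pool.Agent.H88.WR.All.jam 𝕜) (xw3 𝕜) (lcb 𝕜) (wcb 𝕜) (scf 𝕜) (nul 𝕜) (kad 𝕜)

theorem th3 : T_TH3 𝕜 :=
  pf_TH3 𝕜 (tsi 𝕜) (Pool.Agent.H88.WR.All.cpa 𝕜) (grw 𝕜) (ext 𝕜)

end Pool.Agent.H88.CR.All
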