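import Mathlib
import Pool.Agent.H88.WR.Defs

/-!
Rotund ranges for the weak maximizing property (MP_479f73_an): definitions.

`HasWMP`, `WeaklyNull` are in `Pool.Agent.H85.WMPDefs`, `Refl`, `AllCompact` in
`Pool.Agent.H88.WR.Defs`.
-/

set_option autoImplicit false

open Filter Topology Set

namespace Pool.Agent.H88.CR

open Pool.Agent.H85.WMP Pool.Agent.H88.WR

section

variable (F : Type) [NormedAddCommGroup F]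

/-- the norm is locally uniformly convex -/
def LUC : Prop := ∀ x : F, ‖x‖ = 1 → ∀ ε : ℝ, 0 < ε →
  ∃ δ : ℝ, 0 < δ ∧ ∀ y : F, ‖y‖ = 1 → ε ≤ ‖x - y‖ → ‖x + y‖ ≤ 2 - δ

/-- the norm is strictly convex -/
def SC : Prop := ∀ x y : F, ‖x‖ = 1 → ‖y‖ = 1 → ‖x + y‖ = 2 → x = y

end

section

variable (𝕜 : Type) [RCLike 𝕜] (F : Type) [NormedAddCommGroup F] [NormedSpace 𝕜 F]

/-- the norm is weakly uniformly convex -/
def WUC : Prop := ∀ x y : ℕ → F, (∀ n, ‖x n‖ = 1) → (∀ n, ‖y n‖ = 1) →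
  Tendsto (fun n => ‖x n + y n‖) atTop (𝓝 2) → WeaklyNull 𝕜 fun n => x n - y n

/-- a sequence which is bounded below and has upper `c_0` estimates on the sets `s` with
`#s ≤ min s` (so some subsequence generates a spreading model isomorphic to `c_0`) -/
def C0M : Prop := ∃ (y : ℕ → F) (δ K : ℝ), 0 < δ ∧ (∀ j, δ ≤ ‖y j‖) ∧
  ∀ (n : ℕ) (s : Finset ℕ) (a : ℕ → 𝕜), (∀ i ∈ s, n ≤ i) → s.card ≤ n → (∀ i, ‖a i‖ ≤ 1) →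
    ‖∑ i ∈ s, a i • y i‖ ≤ K

/-- `F` contains the spaces `ℓ_∞^n` uniformly -/
def LIU : Prop := ∃ c C : ℝ, 0 < c ∧ ∀ n : ℕ, ∃ y : Fin n → F, ∀ (a : Fin n → 𝕜) (B : ℝ),
  0 ≤ B → (∀ i, ‖a i‖ ≤ B) → ‖∑ i, a i • y i‖ ≤ C * B ∧ ∀ i, c * ‖a i‖ ≤ ‖∑ i, a i • y i‖

end

/-! ### The defect of the parallelogram -/

section

variable {F : Type} [NormedAddCommGroup F]

/-- the defect -/
def Df (x y : F) : ℝ := 2 * ‖x‖ ^ 2 + 2 * ‖y‖ ^ 2 - ‖x + y‖ ^ 2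

end

section

variable (F : Type) [NormedAddCommGroup F]

/-- uniformly convex -/
def UCD : Prop := ∀ R ε : ℝ, 0 < ε → ∃ δ : ℝ, 0 < δ ∧ ∀ x y : F, ‖x‖ ≤ R → ‖y‖ ≤ R →
  Df x y < δ → ‖x - y‖ < ε

/-- locally uniformly convex -/
def LCD : Prop := ∀ (x : F) (ε : ℝ), 0 < ε → ∃ δ : ℝ, 0 < δ ∧ ∀ y : F, Df x y < δ →
  ‖x - y‖ < ε

/-- strictly convex -/
def SCD : Prop := ∀ x y : F, Df x y ≤ 0 → x = y

end

section

variable (𝕜 : Type) [RCLike 𝕜] (F : Type) [NormedAddCommGroup F] [NormedSpace 𝕜 F]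

/-- weakly uniformly convex -/
def WCD : Prop := ∀ (x y : ℕ → F) (C : ℝ), (∀ n, ‖x n‖ ≤ C) → (∀ n, ‖y n‖ ≤ C) →
  Tendsto (fun n => Df (x n) (y n)) atTop (𝓝 0) → WeaklyNull 𝕜 fun n => x n - y n

end

/-- the norm of `F'` is the supremum of the norms `c n * √(‖φ n ·‖ ^ 2 + (ε ‖·‖) ^ 2)` of `F` -/
structure SupN (𝕜 : Type) [RCLike 𝕜] (F : Type) [NormedAddCommGroup F] [NormedSpace 𝕜 F]
    (F' : Type) [NormedAddCommGroup F'] [NormedSpace 𝕜 F'] (e : F' ≃L[𝕜] F)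
    (φ : ℕ → StrongDual 𝕜 F) (c : ℕ → ℝ) (ε κ M : ℝ) : Prop where
  ε0 : 0 < ε
  κ0 : 0 < κ
  hφ : ∀ n, ‖φ n‖ ≤ M
  c0 : ∀ n, κ ≤ c n
  c1 : ∀ n, c n ≤ 1
  norm : ∀ y : F', ‖y‖ = ⨆ n, c n * Real.sqrt (‖φ n (e y)‖ ^ 2 + (ε * ‖e y‖) ^ 2)

/-- the WMP for all these ranges -/
def SupWMP (𝕜 : Type) [RCLike 𝕜] (E : Type) [NormedAddCommGroup E] [NormedSpace 𝕜 E]
    (F : Type) [NormedAddCommGroup F] [NormedSpace 𝕜 F] : Prop :=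
  ∀ (F' : Type) [NormedAddCommGroup F'] [NormedSpace 𝕜 F'] (e : F' ≃L[𝕜] F)
    (φ : ℕ → StrongDual 𝕜 F) (c : ℕ → ℝ) (ε κ M : ℝ), SupN 𝕜 F F' e φ c ε κ M → HasWMP 𝕜 E F'

end Pool.Agent.H88.CR
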